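import Pool.Agent.H76.AB.Stm

set_option autoImplicit false

namespace H57.AB

open H76.AB

theorem t_EX (hF : S_FREE) (h1 : S_EX1) (h2 : S_EX2) : S_EX := by
  intro m w N g hN
  have hfin := (h1 m w N PUnit (fun _ => 1) hN).1
  obtain ⟨Γ, _, _, a, ha⟩ := hF (List ℕ × List ℕ × ℕ) _ g hfin
  obtain ⟨-, e2, e3, e4, e5, e6, e7⟩ := h1 m w N Γ a hN
  exact ⟨raw Γ a m w N, ⟨e2, e3, e4, e5, e6, e7,
    h2 m w N g Γ a (fun L h0 hg hm hc => ha L h0 hg (fun z hz => hm z hz) hc)⟩⟩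

end H57.AB
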