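import Pool.Agent.H76.AB.Stm

set_option autoImplicit false

namespace H57.AB

open H76.AB

theorem fin_lists (B m : ℕ) : {l : List ℕ | l.length ≤ m ∧ ∀ n ∈ l, n < B}.Finite := by
  refine ((List.finite_length_le (Fin B) m).image (List.map Fin.val)).subset ?_
  rintro l ⟨h1, h2⟩
  refine ⟨l.pmap Fin.mk h2, ?_, ?_⟩
  · simpa using h1
  · simp [List.map_pmap]

theorem valid_bd (m : ℕ) (w : ℕ → ℕ) : ∀ P : List ℕ, Valid m w P → ∀ n ∈ P, n < (Finset.range m).sup w
  | [], _ => by simp
  | p :: P, h => by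
    intro n hn
    obtain ⟨h1, h2, h3⟩ := h
    rcases List.mem_cons.1 hn with rfl | hn
    · exact lt_of_lt_of_le h2 (Finset.le_sup (f := w) (Finset.mem_range.2 h1))
    · exact valid_bd m w P h3 n hn

theorem fin_ok (m : ℕ) (w : ℕ → ℕ) (N : ℕ) : {z : List ℕ × List ℕ | Ok m w N z.1 z.2}.Finite := by
  refine ((fin_lists ((Finset.range m).sup w) m).prod (fin_lists N m)).subset ?_
  rintro ⟨P, X⟩ ⟨h1, h2, h3⟩
  refine ⟨⟨?_, valid_bd m w P h1⟩, ?_, h3⟩
  · simp only at h2 ⊢; omega
  · simp only at h2 ⊢; omega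

theorem par_pos {Γ : Type} [Group Γ] (a : List ℕ × List ℕ × ℕ → Γ) (m : ℕ) (w : ℕ → ℕ) (N : ℕ)
    (x : {z : Γ × List ℕ × List ℕ // Ok m w N z.2.1 z.2.2}) (p : ℕ)
    (h : Ok m w N (p :: x.1.2.1) x.1.2.2.tail) :
    (raw Γ a m w N).par x p = (⟨(x.1.1 * a (x.1.2.1, x.1.2.2, p), p :: x.1.2.1, x.1.2.2.tail), h⟩ :
      {z : Γ × List ℕ × List ℕ // Ok m w N z.2.1 z.2.2}) := dif_pos h

theorem par_neg {Γ : Type} [Group Γ] (a : List ℕ × List ℕ × ℕ → Γ) (m : ℕ) (w : ℕ → ℕ) (N : ℕ)
    (x : {z : Γ × List ℕ × List ℕ // Ok m w N z.2.1 z.2.2}) (p : ℕ)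
    (h : ¬ Ok m w N (p :: x.1.2.1) x.1.2.2.tail) :
    (raw Γ a m w N).par x p = x := dif_neg h

theorem t_EX1 : S_EX1 := by
  intro m w N Γ _ _ a hN
  refine ⟨?_, ?_, ?_, ?_, ?_, ?_, ?_⟩
  · refine ((fin_ok m w N).prod (Set.finite_Iio ((Finset.range m).sup w)) |>.image
      (fun z : (List ℕ × List ℕ) × ℕ => (z.1.1, z.1.2, z.2))).subset ?_
    rintro ⟨P, X, p⟩ ⟨h1, h2, h3⟩
    refine ⟨((P, X), p), ⟨h1, ?_⟩, rfl⟩
    exact lt_of_lt_of_le h3 (Finset.le_sup (f := w) (Finset.mem_range.2 h2))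
  · have h : {z : Γ × List ℕ × List ℕ | Ok m w N z.2.1 z.2.2}.Finite := by
      refine ((Set.finite_univ (α := Γ)).prod (fin_ok m w N)).subset ?_
      rintro ⟨γ, P, X⟩ h
      exact ⟨trivial, h⟩
    exact h.to_subtype
  · rintro ⟨⟨γ, P, X⟩, h1, h2, h3⟩
    show P.length ≤ m
    simp only at h2
    omega
  · rintro ⟨⟨γ, P, X⟩, hx⟩ p hp1 hp2
    have hx' : Ok m w N P X := hx
    have hp1' : P.length < m := hp1
    have hp2' : p < w P.length := hp2
    have hok : Ok m w N (p :: P) X.tail := by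
      obtain ⟨h1, h2, h3⟩ := hx'
      refine ⟨⟨hp1', hp2', h1⟩, ?_, ?_⟩
      · simp only [List.length_cons, List.length_tail]; omega
      · intro n hn; exact h3 n (List.mem_of_mem_tail hn)
    exact congrArg (raw Γ a m w N).node (par_pos a m w N ⟨(γ, P, X), hx⟩ p hok)
  · rintro ⟨⟨γ, P, X⟩, hx⟩ p P' h
    have hx' : Ok m w N P X := hx
    have h' : P = p :: P' := h
    subst h'
    exact hx'.1.2.1
  · rintro ⟨⟨δ, Q, Y⟩, hu⟩ p P h
    have hu' : Ok m w N Q Y := hu
    have h' : Q = p :: P := h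
    subst h'
    obtain ⟨⟨hl, hpw, hv⟩, hlen, hY⟩ := hu'
    have hok : ∀ n : Fin N, Ok m w N P ((n : ℕ) :: Y) := by
      intro n
      refine ⟨hv, ?_, ?_⟩
      · simp only [List.length_cons] at hlen ⊢; omega
      · intro k hk
        rcases List.mem_cons.1 hk with rfl | hk
        · exact n.2
        · exact hY k hk
    let f : Fin N → (raw Γ a m w N).V := fun n => ⟨(δ * (a (P, (n : ℕ) :: Y, p))⁻¹, P, (n : ℕ) :: Y), hok n⟩
    have hf : Function.Injective f := by
      intro n n' hnn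
      have h1 := congrArg (fun z : (raw Γ a m w N).V => z.1.2.2) hnn
      simp only [f, List.cons.injEq, and_true] at h1
      exact Fin.ext h1
    have hset : {x : (raw Γ a m w N).V | (raw Γ a m w N).node x = P ∧
        (raw Γ a m w N).par x p = ⟨(δ, p :: P, Y), hu⟩} = f '' Set.univ := by
      ext x
      constructor
      · rintro ⟨hx1, hx2⟩
        obtain ⟨⟨γ, P', X⟩, hx⟩ := x
        have hP : P' = P := hx1
        subst hP
        by_cases hc : Ok m w N (p :: P') X.tail
        · have h3 : (⟨(γ * a (P', X, p), p :: P', X.tail), hc⟩ : (raw Γ a m w N).V) =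
              ⟨(δ, p :: P', Y), hu⟩ := by
            exact (par_pos a m w N ⟨(γ, P', X), hx⟩ p hc).symm.trans hx2
          have h4 := congrArg Subtype.val h3
          simp only [Prod.mk.injEq, true_and] at h4
          obtain ⟨h5, h6⟩ := h4
          have hxl : P'.length + X.length = m := hx.2.1
          rcases X with _ | ⟨n, X'⟩
          · exfalso
            simp only [List.length_cons] at hlen
            simp only [List.length_nil] at hxl
            omega
          · simp only [List.tail_cons] at h6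
            subst h6
            have hn : n < N := hx.2.2 n (by simp)
            refine ⟨⟨n, hn⟩, trivial, ?_⟩
            apply Subtype.ext
            show (δ * (a (P', n :: X', p))⁻¹, P', n :: X') = (γ, P', n :: X')
            rw [← h5, mul_inv_cancel_right]
        · exfalso
          have h3 : (⟨(γ, P', X), hx⟩ : (raw Γ a m w N).V) = ⟨(δ, p :: P', Y), hu⟩ := by
            exact (par_neg a m w N ⟨(γ, P', X), hx⟩ p hc).symm.trans hx2
          have h4 := congrArg (fun z : (raw Γ a m w N).V => z.1.2.1.length) h3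
          simp at h4
      · rintro ⟨n, -, rfl⟩
        refine ⟨rfl, ?_⟩
        have hc : Ok m w N (p :: P) Y := hu
        refine (par_pos a m w N (f n) p hc).trans ?_
        apply Subtype.ext
        show (δ * (a (P, (n : ℕ) :: Y, p))⁻¹ * a (P, (n : ℕ) :: Y, p), p :: P, Y) = (δ, p :: P, Y)
        rw [inv_mul_cancel_right]
    rw [hset, Set.ncard_image_of_injective _ hf, Set.ncard_univ, Nat.card_eq_fintype_card, Fintype.card_fin]
  · refine ⟨⟨(1, [], List.replicate m 0), trivial, ?_, ?_⟩, rfl⟩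
    · simp
    · intro n hn
      rw [List.eq_of_mem_replicate hn]
      exact hN

end H57.AB
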